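import Pool.Agent.Helper73.HV.St

/-!
# HV module NU: the ordinals of cofinality `ν` are definable and stationary
-/

namespace Pool.Agent.Helper68.HV

open Ordinal Cardinal ZFSet Order Pool.Agent.Helper73.HODC Pool.Agent.Helper73.HE
  Pool.Agent.Helper73.HM Pool.Agent.Helper73.HU Pool.Agent.Helper73.HV

/-- the normal function obtained by iterating `G` -/
noncomputable def itseq (G : Ordinal.{0} → Ordinal.{0}) : Ordinal.{0} → Ordinal.{0} :=
  WellFounded.fix (C := fun _ => Ordinal.{0}) Ordinal.lt_wf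
    (fun i H => ⨆ j : Set.Iio i, G (H j.1 j.2) + 1)

theorem itseq_eq (G : Ordinal.{0} → Ordinal.{0}) (i : Ordinal.{0}) :
    itseq G i = ⨆ j : Set.Iio i, G (itseq G j.1) + 1 := by
  unfold itseq
  rw [WellFounded.fix_eq]

theorem itseq_lt (G : Ordinal.{0} → Ordinal.{0}) {j i : Ordinal.{0}} (h : j < i) :
    G (itseq G j) + 1 ≤ itseq G i := by
  rw [itseq_eq G i]
  exact Ordinal.le_iSup (fun j : Set.Iio i => G (itseq G j.1) + 1) ⟨j, h⟩

theorem itseq_le (G : Ordinal.{0} → Ordinal.{0}) {i a : Ordinal.{0}}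
    (h : ∀ j < i, G (itseq G j) + 1 ≤ a) : itseq G i ≤ a := by
  rw [itseq_eq G i]
  apply Ordinal.iSup_le
  intro j
  exact h j.1 j.2

theorem itseq_strictMono {G : Ordinal.{0} → Ordinal.{0}} (hG : ∀ x, x ≤ G x) :
    StrictMono (itseq G) := by
  intro j i h
  exact lt_of_lt_of_le (lt_of_le_of_lt (hG _) (lt_add_one _)) (itseq_lt G h)

theorem itseq_normal {G : Ordinal.{0} → Ordinal.{0}} (hG : ∀ x, x ≤ G x) :
    Order.IsNormal (itseq G) := by
  rw [Order.isNormal_iff]
  refine ⟨itseq_strictMono hG, ?_⟩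
  intro o ho a ha
  apply itseq_le
  intro j hj
  exact (itseq_lt G (Order.lt_succ j)).trans (ha _ (ho.succ_lt hj))

theorem nu (h1 : StCF) (_h2 : StNMap) : StNU := by
  intro ν hν
  constructor
  · have h3 : DPs {a | a.cof < succ ν} := h1 (succ ν) 0
    refine (h3.and (DP.not (h1 ν 0))).congr fun v => ?_
    show (v 0).rank.cof = ν ↔ (v 0).rank.cof < succ ν ∧ ¬ (v 0).rank.cof < ν
    rw [Order.lt_succ_iff, not_lt]
    exact le_antisymm_iff
  · intro τ hτ C hC
    have hun : ℵ₀ < τ.cof := hν.aleph0_le.trans_lt hτ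
    have hlim : IsSuccLimit τ := isSuccLimit_of_cof hun
    classical
    set G : Ordinal.{0} → Ordinal.{0} := fun x =>
      if h : x < τ then Classical.choose (hC.1 x h) else x with hGdef
    have hGlt : ∀ x, x < τ → G x ∈ C ∧ x < G x ∧ G x < τ := by
      intro x hx
      have h3 : G x = Classical.choose (hC.1 x hx) := dif_pos hx
      rw [h3]
      exact Classical.choose_spec (hC.1 x hx)
    have hG : ∀ x, x ≤ G x := by
      intro x
      by_cases hx : x < τ
      · exact (hGlt x hx).2.1.le
      · have h3 : G x = x := dif_neg hx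
        rw [h3]
    have hN := itseq_normal hG
    have hlt : ∀ i ≤ ν.ord, itseq G i < τ := by
      intro i
      induction i using WellFoundedLT.induction with
      | _ i ih =>
        intro hi
        rw [itseq_eq]
        refine Ordinal.lift_iSup_lt_of_lt_cof ?_ ?_
        · rw [Cardinal.mk_Iio_ordinal, ← Ordinal.lift_cof, Cardinal.lift_lift,
            Cardinal.lift_lt]
          refine lt_of_le_of_lt ?_ hτ
          have h4 := Ordinal.card_le_card hi
          rwa [Cardinal.card_ord] at h4
        · intro j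
          have hj : j.1 < i := j.2
          exact hlim.succ_lt (hGlt _ (ih j.1 hj (hj.le.trans hi))).2.2
    have hνlim : IsSuccLimit ν.ord := Cardinal.isSuccLimit_ord hν.aleph0_le
    refine ⟨itseq G ν.ord, ?_, ?_, hlt _ le_rfl⟩
    · show (itseq G ν.ord).cof = ν
      rw [cof_map_of_isNormal hN hνlim, hν.cof_ord]
    · refine hC.2 _ (hlt _ le_rfl) ?_ ?_
      · have h3 : itseq G 0 < itseq G ν.ord := itseq_strictMono hG hνlim.bot_lt
        exact (lt_of_le_of_lt zero_le h3).ne'
      · intro b hb
        obtain ⟨j, hj, hj'⟩ : ∃ j < ν.ord, b < G (itseq G j) + 1 := by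
          by_contra hcon
          push Not at hcon
          exact absurd (itseq_le G hcon) (not_le.2 hb)
        have hj1 : succ j < ν.ord := hνlim.succ_lt hj
        obtain ⟨h5, h6, h7⟩ := hGlt (itseq G (succ j)) (hlt _ hj1.le)
        refine ⟨G (itseq G (succ j)), h5, ?_, ?_⟩
        · exact (hj'.trans_le (itseq_lt G (Order.lt_succ j))).trans h6
        · exact lt_of_lt_of_le (lt_add_one _) (itseq_lt G hj1)

end Pool.Agent.Helper68.HV
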